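import Pool.Agent.X302.TR.Stm

set_option autoImplicit false

namespace Pool.Agent.X168.TR

open Filter Topology Pool.Agent.X302.TR

variable {n : ℕ}

lemma dot_add (m : Fin n → ℤ) (v w : V n) : dot m (v + w) = dot m v + dot m w := by
  simp [dot, mul_add, Finset.sum_add_distrib]

lemma dot_sub (m : Fin n → ℤ) (v w : V n) : dot m (v - w) = dot m v - dot m w := by
  simp [dot, mul_sub, Finset.sum_sub_distrib]

lemma dot_smul (m : Fin n → ℤ) (s : ℝ) (v : V n) : dot m (s • v) = s * dot m v := by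
  simp only [dot, Finset.mul_sum, Pi.smul_apply, smul_eq_mul]
  exact Finset.sum_congr rfl fun j _ => by ring

lemma dot_toV (m x : Fin n → ℤ) : dot m (toV x) = ((∑ j, m j * x j : ℤ) : ℝ) := by
  simp [dot, toV]

lemma dot_bound (m : Fin n → ℤ) (v : V n) : |dot m v| ≤ (∑ j, |(m j : ℝ)|) * ‖v‖ := by
  calc |dot m v| ≤ ∑ j, |(m j : ℝ) * v j| := Finset.abs_sum_le_sum_abs _ _
    _ ≤ ∑ j, |(m j : ℝ)| * ‖v‖ := Finset.sum_le_sum fun j _ => by
        rw [abs_mul]
        exact mul_le_mul_of_nonneg_left (norm_le_pi_norm v j) (abs_nonneg _)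
    _ = _ := by rw [Finset.sum_mul]

theorem t_NEAR : S_NEAR := by
  intro hK hH n p a b e y hR hy hC ε hε S
  obtain ⟨ε0, hε0, hh⟩ := hH n e
  have hT : ∀ i : Fin p, ∃ T : ℝ, ∀ s ≥ T, ∀ δ : V n, ‖δ‖ < 1 → δ ∈ H e →
      dot (a i) (y + s • e + δ) ≤ b i := by
    intro i
    rcases (hR i).lt_or_eq with h | h
    · refine ⟨(dot (a i) y + (∑ j, |(a i j : ℝ)|) - b i) / (-dot (a i) e), ?_⟩
      intro s hs δ hδ _
      have h1 : 0 < -dot (a i) e := by linarith
      rw [ge_iff_le, div_le_iff₀ h1] at hs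
      have h2 := dot_bound (a i) δ
      have h3 : (∑ j, |(a i j : ℝ)|) * ‖δ‖ ≤ ∑ j, |(a i j : ℝ)| := by
        have : 0 ≤ ∑ j, |(a i j : ℝ)| := Finset.sum_nonneg fun j _ => abs_nonneg _
        nlinarith
      have h4 := (abs_le.mp h2).2
      rw [dot_add, dot_add, dot_smul]
      linarith
    · refine ⟨0, fun s _ δ _ hδ => ?_⟩
      rw [dot_add, dot_add, dot_smul, h, mul_zero, hδ (a i) h, add_zero, add_zero]
      exact hC i h
  choose T hT using hT
  obtain ⟨s, hs, x, hx⟩ := hK n e y hy (min 1 (min ε ε0)) (by positivity) (max S (∑ i, |T i|))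
  have hG : toV x - (y + s • e) ∈ G e := by
    intro m hm
    obtain ⟨t, ht⟩ := hy m hm
    refine ⟨(∑ j, m j * x j) - t, ?_⟩
    rw [dot_sub, dot_add, dot_smul, hm, ht, dot_toV]
    push_cast
    ring
  have hHe : toV x - (y + s • e) ∈ H e :=
    hh _ hG (lt_of_lt_of_le hx ((min_le_right _ _).trans (min_le_right _ _)))
  refine ⟨s, (le_max_left _ _).trans hs, x, fun i => ?_,
    lt_of_lt_of_le hx ((min_le_right _ _).trans (min_le_left _ _)), hHe⟩
  have e1 : toV x = y + s • e + (toV x - (y + s • e)) := by abel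
  rw [e1]
  refine hT i s ?_ _ (lt_of_lt_of_le hx (min_le_left _ _)) hHe
  have h1 : |T i| ≤ ∑ i, |T i| := Finset.single_le_sum (f := fun i => |T i|)
    (fun i _ => abs_nonneg _) (Finset.mem_univ i)
  have h2 : ∑ i, |T i| ≤ s := (le_max_right _ _).trans hs
  exact (le_abs_self _).trans (h1.trans h2)

end Pool.Agent.X168.TR
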